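import Pool.Agent.SOCat.Final

/-!
Let `lam` be an `I1`-cardinal (in particular, any `I_0`-cardinal) and let `T` be a finite complete
second-order theory in a finite vocabulary.  Then `T` has no model of cardinality `lam`.
Hence, both questions of the problem have a positive answer.
-/

namespace Pool.Agent.Results.MP_d7cc8a_lc.CategoricalAtI1

open SOCat

universe u

theorem result (lam : Cardinal.{u}) (hlam : IsI1 lam) (τ : Voc) (T : Set (SO τ))
    (hfin : T.Finite) (hsent : ∀ φ ∈ T, SO.IsSentence.{u} φ) (hT : Complete.{u} T) :
    ¬ HasModelOfCard.{u} lam T ∧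
    (HasModelOfCard.{u} lam T → Categorical.{u} T) ∧
    (HasModelOfCard.{u} lam T → CategoricalIn.{u} lam T) := by
  have h := no_model_card lam hlam T hfin hsent hT
  exact ⟨h, fun h' => absurd h' h, fun h' => absurd h' h⟩

end Pool.Agent.Results.MP_d7cc8a_lc.CategoricalAtI1
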